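import Mathlib
import Pool.Agent.H29.Ev

namespace Pool.Agent.Results.MP_16080b_co.Counter

/-- A position: current partial colouring, vertices already picked in the current round, and
whether Bob is to move. -/
@[ext] structure Pos (V : Type) (k : ℕ) where
  col : V → Option (Fin k)
  picked : V → Bool
  bob : Bool

variable {V : Type} [Fintype V] [DecidableEq V] {k : ℕ}

/-- Colour `c` may be given to `v`: it differs from the present colour of `v` (if any) and from
the colours of all neighbours. -/
def Allowed (G : SimpleGraph V) (s : Pos V k) (v : V) (c : Fin k) : Prop :=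
  s.col v ≠ some c ∧ ∀ u, G.Adj v u → s.col u ≠ some c

/-- The position after `v` is picked and gets colour `c`; a new round starts when every vertex
has been picked. -/
def step (s : Pos V k) (v : V) (c : Fin k) : Pos V k where
  col := Function.update s.col v (some c)
  picked := if ∀ u, u = v ∨ s.picked u = true then fun _ => false
    else Function.update s.picked v true
  bob := !s.bob

/-- The initial position: nothing coloured, Alice to move. -/
def start (V : Type) (k : ℕ) : Pos V k := ⟨fun _ => none, fun _ => false, false⟩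

/-- Bob can force a win within the next `m` turns. -/
def BobWins (G : SimpleGraph V) : ℕ → Pos V k → Prop
  | 0, _ => False
  | m + 1, s =>
    if s.bob = true then
      ∃ v, s.picked v = false ∧
        ((∀ c, ¬ Allowed G s v c) ∨ ∃ c, Allowed G s v c ∧ BobWins G m (step s v c))
    else ∀ v, s.picked v = false → ∀ c, Allowed G s v c → BobWins G m (step s v c)

/-- Alice has a winning strategy with `k` colours: a set of positions containing the start in
which she can stay for ever and in which Bob can never pick a vertex without allowed colour. -/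
def AliceWins (G : SimpleGraph V) (k : ℕ) : Prop :=
  ∃ S : Set (Pos V k), start V k ∈ S ∧ ∀ s ∈ S,
    if s.bob = true then
      ∀ v, s.picked v = false → (∃ c, Allowed G s v c) ∧ ∀ c, Allowed G s v c → step s v c ∈ S
    else ∃ v c, s.picked v = false ∧ Allowed G s v c ∧ step s v c ∈ S

theorem not_alice {G : SimpleGraph V} {m : ℕ} (h : BobWins G m (start V k)) :
    ¬ AliceWins G k := by
  rintro ⟨S, h0, hS⟩
  have : ∀ m, ∀ s ∈ S, ¬ BobWins G m s := by
    intro m
    induction m with
    | zero => intro s _ h; exact h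
    | succ m ih =>
      intro s hs h
      have h1 := hS s hs
      unfold BobWins at h
      split_ifs at h h1 with hb
      · obtain ⟨v, hv, h2 | ⟨c, hc, h2⟩⟩ := h
        · obtain ⟨c, hc⟩ := (h1 v hv).1
          exact h2 c hc
        · exact ih _ ((h1 v hv).2 c hc) h2
      · obtain ⟨v, c, hv, hc, h2⟩ := h1
        exact ih _ h2 (h v hv c hc)
  exact this m _ h0 h

/-- The star `K_{1,4}` with centre `0`. -/
def star : SimpleGraph (Fin 5) where
  Adj u v := u ≠ v ∧ (u = 0 ∨ v = 0)
  symm := ⟨fun _ _ h => ⟨h.1.symm, h.2.symm⟩⟩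
  loopless := ⟨fun _ h => h.1 rfl⟩

instance : DecidableRel star.Adj := fun u v => inferInstanceAs (Decidable (u ≠ v ∧ (u = 0 ∨ v = 0)))

instance (s : Pos (Fin 5) k) (v : Fin 5) (c : Fin k) : Decidable (Allowed star s v c) :=
  inferInstanceAs (Decidable (s.col v ≠ some c ∧ ∀ u, star.Adj v u → s.col u ≠ some c))

open Pool.Agent.H29.Ev

def eo : Option (Fin k) → ℕ
  | none => 0
  | some c => c.1 + 1

def dc (k x : ℕ) : Option (Fin k) := if h : 0 < x ∧ x - 1 < k then some ⟨x - 1, h.2⟩ else none

theorem dc_eo (o : Option (Fin k)) : dc k (eo o) = o := by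
  cases o with
  | none => simp [dc, eo]
  | some c => simp [dc, eo]

theorem eo_lt (hk : k ≤ 4) (o : Option (Fin k)) : eo o < 5 := by
  cases o with
  | none => simp [eo]
  | some c => have := c.2; simp only [eo]; omega

def enc (s : Pos (Fin 5) k) : ℕ :=
  eo (s.col 0) + 5 * eo (s.col 1) + 25 * eo (s.col 2) + 125 * eo (s.col 3) + 625 * eo (s.col 4)
    + 3125 * ((s.picked 0).toNat + 2 * (s.picked 1).toNat + 4 * (s.picked 2).toNat +
      8 * (s.picked 3).toNat + 16 * (s.picked 4).toNat + 32 * s.bob.toNat)

def dec (k x : ℕ) : Pos (Fin 5) k where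
  col i := dc k (x / 5 ^ i.1 % 5)
  picked i := decide (x / 3125 / 2 ^ i.1 % 2 = 1)
  bob := decide (x / 100000 % 2 = 1)

theorem tn (b : Bool) {y : ℕ} (h : y = b.toNat) : decide (y = 1) = b := by
  subst h; cases b <;> rfl

theorem dec_enc (hk : k ≤ 4) (s : Pos (Fin 5) k) : dec k (enc s) = s := by
  have c0 := eo_lt hk (s.col 0)
  have c1 := eo_lt hk (s.col 1)
  have c2 := eo_lt hk (s.col 2)
  have c3 := eo_lt hk (s.col 3)
  have c4 := eo_lt hk (s.col 4)
  have p0 := Bool.toNat_le (s.picked 0)
  have p1 := Bool.toNat_le (s.picked 1)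
  have p2 := Bool.toNat_le (s.picked 2)
  have p3 := Bool.toNat_le (s.picked 3)
  have p4 := Bool.toNat_le (s.picked 4)
  have p5 := Bool.toNat_le s.bob
  apply Pos.ext
  · funext i
    rw [← dc_eo (s.col i)]
    change dc k _ = _
    congr 1
    unfold enc
    fin_cases i <;> simp only [Fin.zero_eta, Fin.mk_one, Fin.reduceFinMk] <;> norm_num <;> omega
  · funext i
    apply tn
    unfold enc
    fin_cases i <;> simp only [Fin.zero_eta, Fin.mk_one, Fin.reduceFinMk] <;> norm_num <;> omega
  · apply tn
    unfold enc
    omega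

def locB (k : ℕ) (t : T) (x : ℕ) : Bool :=
  let s := dec k x
  if s.bob = true then
    decide (∃ v, s.picked v = false ∧ ((∀ c, ¬ Allowed star s v c) ∨
      ∃ c, Allowed star s v c ∧ t.mem (enc (step s v c)) = true))
  else decide (∀ v, s.picked v = false → ∀ c, Allowed star s v c →
    t.mem (enc (step s v c)) = true)

def locA (k : ℕ) (t : T) (x : ℕ) : Bool :=
  let s := dec k x
  if s.bob = true then
    decide (∀ v, s.picked v = false → (∃ c, Allowed star s v c) ∧
      ∀ c, Allowed star s v c → t.mem (enc (step s v c)) = true)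
  else decide (∃ v, s.picked v = false ∧ ∃ c, Allowed star s v c ∧
    t.mem (enc (step s v c)) = true)

def chkB (k : ℕ) : List T → Bool
  | [] => true
  | [t] => t.all fun _ => false
  | t :: u :: r => t.all (locB k u) && chkB k (u :: r)

def chkA (k : ℕ) : List T → Bool
  | [] => true
  | [_] => true
  | t :: u :: r => t.all (locA k u) && chkA k (u :: r)

theorem soundB (hk : k ≤ 4) : ∀ (r : List T) (t : T), chkB k (t :: r) = true →
    ∀ s : Pos (Fin 5) k, t.mem (enc s) = true → BobWins star r.length s
  | [], t, h, s, hs => by simpa using T.sound t h hs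
  | u :: r, t, h, s, hs => by
    simp only [chkB, Bool.and_eq_true] at h
    have h1 := T.sound t h.1 hs
    have ih := soundB hk r u h.2
    unfold locB at h1
    simp only [dec_enc hk] at h1
    rw [List.length_cons]
    unfold BobWins
    split_ifs at h1 ⊢ with hb
    · obtain ⟨v, hv, h2 | ⟨c, hc, h2⟩⟩ := of_decide_eq_true h1
      · exact ⟨v, hv, Or.inl h2⟩
      · exact ⟨v, hv, Or.inr ⟨c, hc, ih _ h2⟩⟩
    · intro v hv c hc
      exact ih _ (of_decide_eq_true h1 v hv c hc)

theorem soundA (hk : k ≤ 4) : ∀ (r : List T) (t : T), chkA k (t :: r) = true →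
    ∀ s : Pos (Fin 5) k, t.mem (enc s) = true → ¬ BobWins star r.length s
  | [], _, _, _, _ => fun h => h
  | u :: r, t, h, s, hs => by
    simp only [chkA, Bool.and_eq_true] at h
    have h1 := T.sound t h.1 hs
    have ih := soundA hk r u h.2
    unfold locA at h1
    simp only [dec_enc hk] at h1
    rw [List.length_cons]
    unfold BobWins
    split_ifs at h1 ⊢ with hb
    · have h3 := of_decide_eq_true h1
      rintro ⟨v, hv, h2 | ⟨c, hc, h2⟩⟩
      · obtain ⟨c, hc⟩ := (h3 v hv).1
        exact h2 c hc
      · exact ih _ ((h3 v hv).2 c hc) h2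
    · obtain ⟨v, hv, c, hc, h2⟩ := of_decide_eq_true h1
      intro h3
      exact ih _ h2 (h3 v hv c hc)

theorem c1 : chkB 1 b1 = true := by decide +kernel
theorem c2 : chkB 2 b2 = true := by decide +kernel
theorem c3 : chkB 3 b3 = true := by decide +kernel
theorem c4 : chkB 4 b4 = true := by decide +kernel
theorem c5 : chkA 4 a4 = true := by decide +kernel

theorem result : (∀ j, 1 ≤ j → j ≤ 4 → ¬ AliceWins star j) ∧
    ¬ BobWins star (2 * Fintype.card (Fin 5)) (start (Fin 5) 4) ∧
    BobWins star (3 * Fintype.card (Fin 5)) (start (Fin 5) 4) := by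
  have w4 : BobWins star 15 (start (Fin 5) 4) := soundB le_rfl _ _ c4 _ (by decide +kernel)
  refine ⟨?_, soundA le_rfl _ _ c5 _ (by decide +kernel), w4⟩
  intro j h1 h2
  interval_cases j
  · exact not_alice (soundB (by norm_num) _ _ c1 _ (by decide +kernel))
  · exact not_alice (soundB (by norm_num) _ _ c2 _ (by decide +kernel))
  · exact not_alice (soundB (by norm_num) _ _ c3 _ (by decide +kernel))
  · exact not_alice w4

end Pool.Agent.Results.MP_16080b_co.Counter
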